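import Pool.Agent.H50.ODG.Targets

/-!
Conjugate symmetries (row SYC).
-/

set_option autoImplicit false

namespace Pool.Agent.H97.ODG

open Pool.Agent.H57.CP Pool.Agent.H39.TO Pool.Agent.H39.OD Pool.Agent.H50.ODG

/-- conjugation of an invariant set -/
theorem conj_inv {X : Type} (A : Set X) (H H' G : X → X) (h1 : ∀ x, H' (H x) = x)
    (h2 : ∀ x, H (H' x) = x) (hG : ∀ x, G x ∈ A ↔ x ∈ A) (x : X) :
    H (G (H' x)) ∈ H '' A ↔ x ∈ H '' A := by
  have h3 : ∀ y, y ∈ H '' A ↔ H' y ∈ A := by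
    intro y
    constructor
    · rintro ⟨a, ha, rfl⟩
      rw [h1]
      exact ha
    · intro hy
      exact ⟨H' y, hy, h2 y⟩
  rw [h3, h3, h1, hG]

theorem inv_ap {X : Type} (h : Equiv.Perm X) (x : X) : h⁻¹ (h x) = x := by
  rw [← Equiv.Perm.mul_apply, inv_mul_cancel, Equiv.Perm.one_apply]

theorem ap_inv {X : Type} (h : Equiv.Perm X) (x : X) : h (h⁻¹ x) = x := by
  rw [← Equiv.Perm.mul_apply, mul_inv_cancel, Equiv.Perm.one_apply]

theorem im_inv {X : Type} (h : Equiv.Perm X) (e : Set X) : (h⁻¹ : Equiv.Perm X) '' (h '' e) = e := by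
  rw [← Set.image_comp, ← Equiv.Perm.coe_mul, inv_mul_cancel, Equiv.Perm.coe_one, Set.image_id]

theorem im_inv' {X : Type} (h : Equiv.Perm X) (e : Set X) :
    h '' ((h⁻¹ : Equiv.Perm X) '' e) = e := by
  rw [← Set.image_comp, ← Equiv.Perm.coe_mul, mul_inv_cancel, Equiv.Perm.coe_one, Set.image_id]

theorem pf_SYC : T_SYC := by
  intro K g h hg hh
  have hinv : IsIso h⁻¹ := by
    intro x y
    have := hh (h⁻¹ x) (h⁻¹ y)
    rw [ap_inv, ap_inv] at this
    exact this.symm
  refine ⟨?_, ?_, ?_, ?_⟩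
  · intro x y
    rw [Equiv.Perm.mul_apply, Equiv.Perm.mul_apply, Equiv.Perm.mul_apply, Equiv.Perm.mul_apply,
      hh, hg.iso, hinv]
  · intro x
    exact conj_inv K.V h (h⁻¹ : Equiv.Perm H3) g (fun x => inv_ap h x)
      (fun x => ap_inv h x) hg.v x
  · intro e
    have h1 : (h * g * h⁻¹ : Equiv.Perm H3) '' e =
        h '' (g '' ((h⁻¹ : Equiv.Perm H3) '' e)) := by
      rw [Equiv.Perm.coe_mul, Equiv.Perm.coe_mul, Set.image_comp, Set.image_comp]
    rw [h1]
    exact conj_inv K.E (Set.image h) (Set.image (h⁻¹ : Equiv.Perm H3)) (Set.image g)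
      (fun x => im_inv h x) (fun x => im_inv' h x) hg.e e
  · intro f
    have h1 : (Set.image (h * g * h⁻¹ : Equiv.Perm H3)) '' f =
        (Set.image h) '' ((Set.image g) '' ((Set.image (h⁻¹ : Equiv.Perm H3)) '' f)) := by
      rw [← Set.image_comp, ← Set.image_comp]
      congr 1
      funext e
      rw [Equiv.Perm.coe_mul, Equiv.Perm.coe_mul, Set.image_comp, Set.image_comp]
      rfl
    rw [h1]
    refine conj_inv K.F (Set.image (Set.image h)) (Set.image (Set.image (h⁻¹ : Equiv.Perm H3)))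
      (Set.image (Set.image g)) (fun x => ?_) (fun x => ?_) hg.f f
    · rw [← Set.image_comp]
      have : (Set.image (h⁻¹ : Equiv.Perm H3)) ∘ (Set.image h) = id := by
        funext e
        exact im_inv h e
      rw [this, Set.image_id]
    · rw [← Set.image_comp]
      have : (Set.image h) ∘ (Set.image (h⁻¹ : Equiv.Perm H3)) = id := by
        funext e
        exact im_inv' h e
      rw [this, Set.image_id]

end Pool.Agent.H97.ODG
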